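import Pool.Agent.W207.PU.SpecA

set_option autoImplicit false

namespace Pool.Agent.W347.PU

open Complex Filter Topology Set MeasureTheory
open W207.PU
open W207.PR (Tst ct dt)

lemma norm_cos_le (z : ℂ) : ‖Complex.cos z‖ ≤ Real.exp |z.im| := by
  have h1 : ‖cexp (z * I)‖ ≤ Real.exp |z.im| := by
    rw [Complex.norm_exp]
    apply Real.exp_le_exp.2
    have : (z * I).re = -z.im := by simp
    rw [this]
    exact neg_le_abs _
  have h2 : ‖cexp (-z * I)‖ ≤ Real.exp |z.im| := by
    rw [Complex.norm_exp]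
    apply Real.exp_le_exp.2
    have : (-z * I).re = z.im := by simp
    rw [this]
    exact le_abs_self _
  rw [Complex.cos, norm_div]
  have h3 := norm_add_le (cexp (z * I)) (cexp (-z * I))
  have h4 : ‖(2 : ℂ)‖ = 2 := by simp
  rw [h4]
  linarith

lemma norm_sin_le (z : ℂ) : ‖Complex.sin z‖ ≤ Real.exp |z.im| := by
  have h1 : ‖cexp (z * I)‖ ≤ Real.exp |z.im| := by
    rw [Complex.norm_exp]
    apply Real.exp_le_exp.2
    have : (z * I).re = -z.im := by simp
    rw [this]
    exact neg_le_abs _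
  have h2 : ‖cexp (-z * I)‖ ≤ Real.exp |z.im| := by
    rw [Complex.norm_exp]
    apply Real.exp_le_exp.2
    have : (-z * I).re = z.im := by simp
    rw [this]
    exact le_abs_self _
  rw [Complex.sin, norm_div, norm_mul, norm_I, mul_one]
  have h3 := norm_sub_le (cexp (-z * I)) (cexp (z * I))
  have h4 : ‖(2 : ℂ)‖ = 2 := by simp
  rw [h4]
  linarith

lemma cos_bd (μ α : ℝ) (w : ℂ) (hα : |α| ≤ μ) :
    ‖Complex.cos (2 * Real.pi * α * w)‖ ≤ Real.exp (2 * Real.pi * μ * |w.im|) := by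
  refine (norm_cos_le _).trans (Real.exp_le_exp.2 ?_)
  have h1 : (2 * (Real.pi : ℂ) * α * w).im = 2 * Real.pi * α * w.im := by
    have : (2 * (Real.pi : ℂ) * α * w) = ((2 * Real.pi * α : ℝ) : ℂ) * w := by push_cast; ring
    rw [this, Complex.im_ofReal_mul]
  rw [h1, abs_mul, abs_mul, abs_of_pos (by positivity : (0 : ℝ) < 2 * Real.pi)]
  exact mul_le_mul_of_nonneg_right (mul_le_mul_of_nonneg_left hα (by positivity)) (abs_nonneg _)

lemma sin_bd (μ α : ℝ) (w : ℂ) (hα : |α| ≤ μ) :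
    ‖Complex.sin (2 * Real.pi * α * w)‖ ≤ Real.exp (2 * Real.pi * μ * |w.im|) := by
  refine (norm_sin_le _).trans (Real.exp_le_exp.2 ?_)
  have h1 : (2 * (Real.pi : ℂ) * α * w).im = 2 * Real.pi * α * w.im := by
    have : (2 * (Real.pi : ℂ) * α * w) = ((2 * Real.pi * α : ℝ) : ℂ) * w := by push_cast; ring
    rw [this, Complex.im_ofReal_mul]
  rw [h1, abs_mul, abs_mul, abs_of_pos (by positivity : (0 : ℝ) < 2 * Real.pi)]
  exact mul_le_mul_of_nonneg_right (mul_le_mul_of_nonneg_left hα (by positivity)) (abs_nonneg _)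

lemma int_bnd (u : ℝ → ℝ) (μ : ℝ) (hu : Integrable u) (h0 : ∀ x, μ < |x| → u x = 0) (w : ℂ) :
    ‖ctc u w‖ ≤ (∫ α, |u α|) * Real.exp (2 * Real.pi * μ * |w.im|) := by
  unfold ctc
  refine (norm_integral_le_integral_norm _).trans ?_
  rw [← integral_mul_const]
  refine integral_mono_of_nonneg (Eventually.of_forall fun α => norm_nonneg _)
    (hu.abs.mul_const _) (Eventually.of_forall fun α => ?_)
  show ‖(u α : ℂ) * Complex.cos (2 * Real.pi * α * w)‖ ≤ |u α| * _
  rw [norm_mul, Complex.norm_real, Real.norm_eq_abs]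
  by_cases h : μ < |α|
  · rw [h0 α h]
    simp
  · exact mul_le_mul_of_nonneg_left (cos_bd μ α w (not_lt.1 h)) (abs_nonneg _)

lemma ibp (ψ : ℝ → ℝ) (hψ : ContDiff ℝ 2 ψ) (hc : HasCompactSupport ψ) (w : ℂ) :
    (2 * Real.pi * w) ^ 2 * ctc ψ w = -ctc (deriv (deriv ψ)) w := by
  have hd0 : Differentiable ℝ ψ := hψ.differentiable (by norm_num)
  have hψ1 : ContDiff ℝ 1 (deriv ψ) := by
    have : ContDiff ℝ (1 + 1) ψ := hψ
    exact (contDiff_succ_iff_deriv.1 this).2.2
  have hd1 : Differentiable ℝ (deriv ψ) := hψ1.differentiable (by norm_num)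
  have hψ2 : Continuous (deriv (deriv ψ)) := hψ1.continuous_deriv (by norm_num)
  have hc1 : HasCompactSupport (deriv ψ) := hc.deriv
  have hc2 : HasCompactSupport (deriv (deriv ψ)) := hc1.deriv
  have key : ∀ (u : ℝ → ℝ) (v : ℝ → ℂ), Continuous u → HasCompactSupport u → Continuous v →
      Integrable (fun α => (u α : ℂ) * v α) := by
    intro u v hu hcu hv
    refine ((Complex.continuous_ofReal.comp hu).mul hv).integrable_of_hasCompactSupport ?_
    have h1 : HasCompactSupport (fun α => (u α : ℂ)) := hcu.comp_left (g := fun x : ℝ => (x : ℂ))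
      (by simp)
    exact h1.mul_right
  have hcosd : ∀ α : ℝ, HasDerivAt (fun α : ℝ => -Complex.cos (2 * Real.pi * α * w))
      (Complex.sin (2 * Real.pi * α * w) * (2 * Real.pi * w)) α := by
    intro α
    have h1 : HasDerivAt (fun z : ℂ => 2 * Real.pi * z * w) (2 * Real.pi * w) (α : ℂ) := by
      have := (((hasDerivAt_id (α : ℂ)).const_mul (2 * (Real.pi : ℂ))).mul_const w)
      simpa using this
    have h2 := (h1.ccos).neg
    have h3 : HasDerivAt (fun α : ℝ => -Complex.cos (2 * Real.pi * α * w))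
      (-(-Complex.sin (2 * Real.pi * α * w) * (2 * Real.pi * w))) α := h2.comp_ofReal
    have e : Complex.sin (2 * Real.pi * α * w) * (2 * Real.pi * w) =
      -(-Complex.sin (2 * Real.pi * α * w) * (2 * Real.pi * w)) := by ring
    rw [e]
    exact h3
  have hsind : ∀ α : ℝ, HasDerivAt (fun α : ℝ => Complex.sin (2 * Real.pi * α * w))
      (Complex.cos (2 * Real.pi * α * w) * (2 * Real.pi * w)) α := by
    intro α
    have h1 : HasDerivAt (fun z : ℂ => 2 * Real.pi * z * w) (2 * Real.pi * w) (α : ℂ) := by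
      have := (((hasDerivAt_id (α : ℂ)).const_mul (2 * (Real.pi : ℂ))).mul_const w)
      simpa using this
    have h2 := h1.csin
    exact h2.comp_ofReal
  have hcosc : Continuous (fun α : ℝ => Complex.cos (2 * Real.pi * α * w)) := by fun_prop
  have hsinc : Continuous (fun α : ℝ => Complex.sin (2 * Real.pi * α * w)) := by fun_prop
  have A := integral_mul_deriv_eq_deriv_mul_of_integrable (u := fun α : ℝ => (ψ α : ℂ))
    (u' := fun α : ℝ => ((deriv ψ α : ℝ) : ℂ))
    (v := fun α : ℝ => Complex.sin (2 * Real.pi * α * w))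
    (v' := fun α : ℝ => Complex.cos (2 * Real.pi * α * w) * (2 * Real.pi * w))
    (fun α _ => (hd0 α).hasDerivAt.ofReal_comp) (fun α _ => hsind α)
    (key _ _ hψ.continuous hc (by fun_prop)) (key _ _ hψ1.continuous hc1 hsinc)
    (key _ _ hψ.continuous hc hsinc)
  have B := integral_mul_deriv_eq_deriv_mul_of_integrable
    (u := fun α : ℝ => ((deriv ψ α : ℝ) : ℂ))
    (u' := fun α : ℝ => ((deriv (deriv ψ) α : ℝ) : ℂ))
    (v := fun α : ℝ => -Complex.cos (2 * Real.pi * α * w))
    (v' := fun α : ℝ => Complex.sin (2 * Real.pi * α * w) * (2 * Real.pi * w))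
    (fun α _ => (hd1 α).hasDerivAt.ofReal_comp) (fun α _ => hcosd α)
    (key _ _ hψ1.continuous hc1 (by fun_prop)) (key _ _ hψ2 hc2 hcosc.neg)
    (key _ _ hψ1.continuous hc1 hcosc.neg)
  have e1 : (2 * Real.pi * w) * ctc ψ w = -∫ α : ℝ, ((deriv ψ α : ℝ) : ℂ) *
      Complex.sin (2 * Real.pi * α * w) := by
    rw [← A, ctc, ← integral_const_mul]
    refine integral_congr_ae (Eventually.of_forall fun α => ?_)
    show _ = _
    ring
  have e2 : (2 * Real.pi * w) * ∫ α : ℝ, ((deriv ψ α : ℝ) : ℂ) *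
      Complex.sin (2 * Real.pi * α * w) = ctc (deriv (deriv ψ)) w := by
    have e3 : (2 * Real.pi * w) * ∫ α : ℝ, ((deriv ψ α : ℝ) : ℂ) *
      Complex.sin (2 * Real.pi * α * w) = ∫ α : ℝ, ((deriv ψ α : ℝ) : ℂ) *
        (Complex.sin (2 * Real.pi * α * w) * (2 * Real.pi * w)) := by
      rw [← integral_const_mul]
      refine integral_congr_ae (Eventually.of_forall fun α => ?_)
      show _ = _
      ring
    rw [e3, B, ctc, ← integral_neg]
    refine integral_congr_ae (Eventually.of_forall fun α => ?_)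
    show _ = _
    ring
  rw [pow_two, mul_assoc, e1, mul_neg, e2]

/-- decay of the transform in a strip -/
lemma decay (ψ : ℝ → ℝ) (μ : ℝ) (hT : Tst ψ) (hμ : 0 < μ) (h0 : ∀ x, μ ≤ |x| → ψ x = 0) :
    ∃ C : ℝ, 0 < C ∧ ∀ w : ℂ, ‖ctc ψ w‖ ≤ C * Real.exp (2 * Real.pi * μ * |w.im|) *
      ((1 + |w.re|)⁻¹) ^ 2 := by
  have hψ : ContDiff ℝ 2 ψ := hT.smooth 2
  have hc : HasCompactSupport ψ := by
    refine HasCompactSupport.intro (isCompact_Icc : IsCompact (Icc (-μ) μ)) fun x hx => ?_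
    apply h0
    by_contra h
    push Not at h
    exact hx ⟨(abs_lt.1 h).1.le, (abs_lt.1 h).2.le⟩
  have hψ1 : ContDiff ℝ 1 (deriv ψ) := by
    have : ContDiff ℝ (1 + 1) ψ := hψ
    exact (contDiff_succ_iff_deriv.1 this).2.2
  have hψ2 : Continuous (deriv (deriv ψ)) := hψ1.continuous_deriv (by norm_num)
  have hc2 : HasCompactSupport (deriv (deriv ψ)) := hc.deriv.deriv
  have hi0 : Integrable ψ := hψ.continuous.integrable_of_hasCompactSupport hc
  have hi2 : Integrable (deriv (deriv ψ)) := hψ2.integrable_of_hasCompactSupport hc2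
  have hz1 : ∀ x, μ < |x| → deriv ψ =ᶠ[𝓝 x] 0 := by
    intro x hx
    have h1 : ∀ᶠ y in 𝓝 x, μ < |y| := (continuous_abs.tendsto x).eventually_const_lt hx
    filter_upwards [h1.eventually_nhds] with y hy
    have h2 : ψ =ᶠ[𝓝 y] fun _ => 0 := by
      filter_upwards [hy] with z hz
      exact h0 z hz.le
    rw [h2.deriv_eq, deriv_const]
    rfl
  have hz2 : ∀ x, μ < |x| → deriv (deriv ψ) x = 0 := by
    intro x hx
    have h1 := (hz1 x hx).deriv_eq
    rw [h1]
    exact deriv_const x (0 : ℝ)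
  obtain ⟨A, hA⟩ : ∃ A, A = ∫ α, |ψ α| := ⟨_, rfl⟩
  obtain ⟨B, hB⟩ : ∃ B, B = ∫ α, |deriv (deriv ψ) α| := ⟨_, rfl⟩
  have hA0 : 0 ≤ A := by rw [hA]; exact integral_nonneg fun α => abs_nonneg _
  have hB0 : 0 ≤ B := by rw [hB]; exact integral_nonneg fun α => abs_nonneg _
  refine ⟨2 * (A + B) + 1, by positivity, fun w => ?_⟩
  have b1 := int_bnd ψ μ hi0 (fun x hx => h0 x hx.le) w
  have b2 := int_bnd _ μ hi2 hz2 w
  rw [← hA] at b1
  rw [← hB] at b2
  obtain ⟨E, hE⟩ : ∃ E, E = Real.exp (2 * Real.pi * μ * |w.im|) := ⟨_, rfl⟩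
  rw [← hE] at b1 b2 ⊢
  have hE0 : 0 < E := by rw [hE]; positivity
  have h3 := congrArg norm (ibp ψ hψ hc w)
  rw [norm_mul, norm_pow, norm_neg] at h3
  have h4 : |w.re| ≤ ‖2 * Real.pi * w‖ := by
    rw [norm_mul]
    have h5 : ‖(2 : ℂ) * Real.pi‖ = 2 * Real.pi := by
      rw [norm_mul, Complex.norm_real, Real.norm_eq_abs, abs_of_pos Real.pi_pos]
      simp
    rw [h5]
    have h6 := Complex.abs_re_le_norm w
    have h7 := Real.pi_gt_three
    nlinarith [norm_nonneg w]
  have h8 : |w.re| ^ 2 * ‖ctc ψ w‖ ≤ B * E := by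
    refine le_trans ?_ b2
    rw [← h3]
    exact mul_le_mul_of_nonneg_right (pow_le_pow_left₀ (abs_nonneg _) h4 2) (norm_nonneg _)
  have h9 : (1 + |w.re|) ^ 2 * ‖ctc ψ w‖ ≤ (2 * (A + B) + 1) * E := by
    have h10 : (1 + |w.re|) ^ 2 ≤ 2 * (1 + |w.re| ^ 2) := by nlinarith [sq_nonneg (1 - |w.re|)]
    have h11 := mul_le_mul_of_nonneg_right h10 (norm_nonneg (ctc ψ w))
    nlinarith
  have h12 : (0 : ℝ) < 1 + |w.re| := by positivity
  rw [inv_pow, ← div_eq_mul_inv, le_div_iff₀ (by positivity)]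
  linarith

lemma ctc_diff (ψ : ℝ → ℝ) (μ : ℝ) (hT : Tst ψ) (hμ : 0 < μ) (h0 : ∀ x, μ ≤ |x| → ψ x = 0) :
    Differentiable ℂ (ctc ψ) := by
  have hψ : ContDiff ℝ 2 ψ := hT.smooth 2
  have hc : HasCompactSupport ψ := by
    refine HasCompactSupport.intro (isCompact_Icc : IsCompact (Icc (-μ) μ)) fun x hx => ?_
    apply h0
    by_contra h
    push Not at h
    exact hx ⟨(abs_lt.1 h).1.le, (abs_lt.1 h).2.le⟩
  have hi0 : Integrable ψ := hψ.continuous.integrable_of_hasCompactSupport hc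
  have hcψ : Continuous ψ := hψ.continuous
  have key : ∀ v : ℝ → ℂ, Continuous v → Integrable (fun α => (ψ α : ℂ) * v α) := by
    intro v hv
    refine ((Complex.continuous_ofReal.comp hcψ).mul hv).integrable_of_hasCompactSupport ?_
    have h1 : HasCompactSupport (fun α => (ψ α : ℂ)) := hc.comp_left (g := fun x : ℝ => (x : ℂ))
      (by simp)
    exact h1.mul_right
  intro w
  have hder : ∀ (α : ℝ) (z : ℂ), HasDerivAt (fun z : ℂ => (ψ α : ℂ) *
      Complex.cos (2 * Real.pi * α * z))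
      ((ψ α : ℂ) * (-Complex.sin (2 * Real.pi * α * z) * (2 * Real.pi * α))) z := by
    intro α z
    have h1 : HasDerivAt (fun z : ℂ => 2 * Real.pi * α * z) (2 * Real.pi * α) z := by
      have := (hasDerivAt_id z).const_mul (2 * (Real.pi : ℂ) * α)
      simpa using this
    exact h1.ccos.const_mul _
  have h := hasDerivAt_integral_of_dominated_loc_of_deriv_le
    (F := fun (z : ℂ) (α : ℝ) => (ψ α : ℂ) * Complex.cos (2 * Real.pi * α * z))
    (F' := fun (z : ℂ) (α : ℝ) => (ψ α : ℂ) *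
      (-Complex.sin (2 * Real.pi * α * z) * (2 * Real.pi * α)))
    (x₀ := w) (s := Metric.ball w 1) (μ := volume)
    (bound := fun α => |ψ α| * (Real.exp (2 * Real.pi * μ * (|w.im| + 1)) * (2 * Real.pi * μ)))
    (Metric.ball_mem_nhds w one_pos)
    (Eventually.of_forall fun z => (key _ (by fun_prop)).aestronglyMeasurable)
    (key _ (by fun_prop)) (key _ (by fun_prop)).aestronglyMeasurable
    (Eventually.of_forall fun α z hz => ?_) (hi0.abs.mul_const _)
    (Eventually.of_forall fun α z _ => hder α z)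
  · exact h.2.differentiableAt
  · show ‖(ψ α : ℂ) * (-Complex.sin (2 * Real.pi * α * z) * (2 * Real.pi * α))‖ ≤ _
    rw [norm_mul, Complex.norm_real, Real.norm_eq_abs]
    by_cases h : μ ≤ |α|
    · rw [h0 α h]
      simp
    · push Not at h
      refine mul_le_mul_of_nonneg_left ?_ (abs_nonneg _)
      rw [norm_mul, norm_neg]
      refine mul_le_mul ?_ ?_ (norm_nonneg _) (by positivity)
      · refine (sin_bd μ α z h.le).trans (Real.exp_le_exp.2 ?_)
        refine mul_le_mul_of_nonneg_left ?_ (by positivity)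
        have h1 : |z.im - w.im| ≤ 1 := by
          have h2 := Complex.abs_im_le_norm (z - w)
          rw [Complex.sub_im] at h2
          rw [Metric.mem_ball, dist_eq_norm] at hz
          linarith
        have h3 := abs_sub_abs_le_abs_sub z.im w.im
        linarith
      · have h1 : (2 * (Real.pi : ℂ) * α) = ((2 * Real.pi * α : ℝ) : ℂ) := by push_cast; ring
        rw [h1, Complex.norm_real, Real.norm_eq_abs, abs_mul,
          abs_of_pos (by positivity : (0 : ℝ) < 2 * Real.pi)]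
        exact mul_le_mul_of_nonneg_left h.le (by positivity)

lemma ctc_conj (ψ : ℝ → ℝ) (w : ℂ) :
    ctc ψ (starRingEnd ℂ w) = starRingEnd ℂ (ctc ψ w) := by
  unfold ctc
  rw [← integral_conj]
  refine integral_congr_ae (Eventually.of_forall fun α => ?_)
  show (ψ α : ℂ) * Complex.cos (2 * Real.pi * α * starRingEnd ℂ w) =
    starRingEnd ℂ ((ψ α : ℂ) * Complex.cos (2 * Real.pi * α * w))
  have e2 : starRingEnd ℂ (2 : ℂ) = 2 := map_ofNat _ 2
  rw [map_mul, ← Complex.cos_conj, map_mul, map_mul, map_mul, e2, Complex.conj_ofReal,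
    Complex.conj_ofReal, Complex.conj_ofReal]

lemma ctc_real (ψ : ℝ → ℝ) (x : ℝ) : ctc ψ x = ((ct ψ x : ℝ) : ℂ) := by
  unfold ctc ct
  rw [← integral_complex_ofReal]
  refine integral_congr_ae (Eventually.of_forall fun α => ?_)
  show _ = _
  push_cast
  rfl

/-- the complex function -/
noncomputable def Hc (ψ : ℝ → ℝ) (lam : ℝ) (z : ℂ) : ℂ := ctc ψ (z * lam) * cexp (-z ^ 2 / 4)

lemma hC_eq (ψ : ℝ → ℝ) (lam d b : ℝ) : hC ψ lam d b = (Hc ψ lam ((d : ℂ) - b * I)).re := rfl

lemma hR_eq (ψ : ℝ → ℝ) (lam d : ℝ) : hR ψ lam d = (Hc ψ lam d).re := by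
  unfold hR Hc
  have h1 : ((d : ℂ) * lam) = ((d * lam : ℝ) : ℂ) := by push_cast; ring
  have h2 : cexp (-(d : ℂ) ^ 2 / 4) = ((Real.exp (-d ^ 2 / 4) : ℝ) : ℂ) := by
    push_cast
    ring_nf
  rw [h1, h2, ctc_real, ← Complex.ofReal_mul, Complex.ofReal_re]

lemma Hc_conj (ψ : ℝ → ℝ) (lam : ℝ) (z : ℂ) :
    Hc ψ lam (starRingEnd ℂ z) = starRingEnd ℂ (Hc ψ lam z) := by
  unfold Hc
  have h1 : starRingEnd ℂ z * lam = starRingEnd ℂ (z * lam) := by
    rw [map_mul, Complex.conj_ofReal]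
  have e4 : starRingEnd ℂ (4 : ℂ) = 4 := map_ofNat _ 4
  rw [h1, ctc_conj, map_mul, ← Complex.exp_conj, map_div₀, map_neg, map_pow, e4]

lemma Hc_bd (ψ : ℝ → ℝ) (μ C : ℝ) (hC : 0 < C) (h : ∀ w : ℂ, ‖ctc ψ w‖ ≤
    C * Real.exp (2 * Real.pi * μ * |w.im|) * ((1 + |w.re|)⁻¹) ^ 2) (lam : ℝ) (hl : 1 ≤ lam)
    (z : ℂ) (hz : |z.im| ≤ 3) : ‖Hc ψ lam z‖ ≤ C * Real.exp 3 *
      Real.exp (2 * Real.pi * μ * lam * |z.im|) * ((1 + lam * |z.re|)⁻¹) ^ 2 := by
  unfold Hc
  rw [norm_mul]
  have h1 := h (z * lam)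
  rw [Complex.im_mul_ofReal, Complex.re_mul_ofReal, abs_mul, abs_mul,
    abs_of_nonneg (by linarith : 0 ≤ lam)] at h1
  have h2 : ‖cexp (-z ^ 2 / 4)‖ ≤ Real.exp 3 := by
    rw [Complex.norm_exp]
    apply Real.exp_le_exp.2
    have h3 : (-z ^ 2 / 4).re = (z.im ^ 2 - z.re ^ 2) / 4 := by
      have : -z ^ 2 / 4 = ((-(1 / 4) : ℝ) : ℂ) * (z * z) := by push_cast; ring
      rw [this, Complex.re_ofReal_mul, Complex.mul_re]
      ring
    rw [h3]
    have h4 : z.im ^ 2 ≤ 9 := by
      rw [← sq_abs]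
      nlinarith [abs_nonneg z.im]
    nlinarith [sq_nonneg z.re]
  refine (mul_le_mul h1 h2 (norm_nonneg _) (by positivity)).trans (le_of_eq ?_)
  rw [mul_comm lam |z.re|]
  have : 2 * Real.pi * μ * (|z.im| * lam) = 2 * Real.pi * μ * lam * |z.im| := by ring
  rw [this]
  ring

/-- second order estimate -/
lemma sec (g : ℂ → ℂ) (hg : Differentiable ℂ g) (R B b : ℝ) (hR : 0 < R)
    (hB : ∀ z : ℂ, ‖z‖ ≤ 3 * R → ‖g z‖ ≤ B) (hb : |b| ≤ R)
    (hev : ∀ t : ℝ, (g ((-t : ℝ) : ℂ)).re = (g (t : ℂ)).re) :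
    |(g (b : ℂ)).re - (g 0).re| ≤ B / R / R * b ^ 2 := by
  have hg1 : Differentiable ℂ (deriv g) := by
    have := (hg.differentiableOn (s := univ)).deriv isOpen_univ
    exact differentiableOn_univ.1 this
  have d1 : ∀ z : ℂ, ‖z‖ ≤ 2 * R → ‖deriv g z‖ ≤ B / R := by
    intro z hz
    refine Complex.norm_deriv_le_of_forall_mem_sphere_norm_le hR hg.diffContOnCl fun y hy => ?_
    apply hB
    rw [mem_sphere_iff_norm] at hy
    have : ‖y‖ ≤ ‖y - z‖ + ‖z‖ := by
      have := norm_add_le (y - z) z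
      rwa [sub_add_cancel] at this
    linarith
  have d2 : ∀ z : ℂ, ‖z‖ ≤ R → ‖deriv (deriv g) z‖ ≤ B / R / R := by
    intro z hz
    refine Complex.norm_deriv_le_of_forall_mem_sphere_norm_le hR hg1.diffContOnCl fun y hy => ?_
    apply d1
    rw [mem_sphere_iff_norm] at hy
    have : ‖y‖ ≤ ‖y - z‖ + ‖z‖ := by
      have := norm_add_le (y - z) z
      rwa [sub_add_cancel] at this
    linarith
  have f1 : ∀ t : ℝ, HasDerivAt (fun t : ℝ => (g (t : ℂ)).re) (deriv g (t : ℂ)).re t :=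
    fun t => (hg (t : ℂ)).hasDerivAt.real_of_complex
  have f2 : ∀ t : ℝ, HasDerivAt (fun t : ℝ => (deriv g (t : ℂ)).re)
      (deriv (deriv g) (t : ℂ)).re t :=
    fun t => (hg1 (t : ℂ)).hasDerivAt.real_of_complex
  have z0 : (deriv g (0 : ℂ)).re = 0 := by
    have h1 := f1 0
    have h2 : HasDerivAt (fun t : ℝ => (g ((-t : ℝ) : ℂ)).re) (-(deriv g ((0 : ℝ) : ℂ)).re) 0 := by
      have h3 : HasDerivAt (fun t : ℝ => -t) (-1) (0 : ℝ) := hasDerivAt_neg 0
      have h4 : HasDerivAt (fun t : ℝ => (g (t : ℂ)).re) (deriv g ((0 : ℝ) : ℂ)).re (-(0 : ℝ)) := by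
        rw [neg_zero]
        exact h1
      have h5 := h4.comp (0 : ℝ) h3
      rw [mul_neg_one] at h5
      exact h5
    have h3 : (fun t : ℝ => (g ((-t : ℝ) : ℂ)).re) = fun t : ℝ => (g (t : ℂ)).re := by
      funext t
      exact hev t
    rw [h3] at h2
    have h4 := h1.unique h2
    rw [Complex.ofReal_zero] at h4
    linarith
  have hB0 : 0 ≤ B / R / R := (norm_nonneg _).trans (d2 0 (by rw [norm_zero]; exact hR.le))
  have conv : Convex ℝ (Icc (-|b|) |b|) := convex_Icc _ _
  have m0 : (0 : ℝ) ∈ Icc (-|b|) |b| := ⟨by linarith [abs_nonneg b], abs_nonneg b⟩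
  have mb : b ∈ Icc (-|b|) |b| := ⟨neg_abs_le b, le_abs_self b⟩
  have e1 : ∀ t ∈ Icc (-|b|) |b|, |(deriv g (t : ℂ)).re| ≤ B / R / R * |b| := by
    intro t ht
    have h1 := conv.norm_image_sub_le_of_norm_hasDerivWithin_le
      (f := fun t : ℝ => (deriv g (t : ℂ)).re) (f' := fun t : ℝ => (deriv (deriv g) (t : ℂ)).re)
      (C := B / R / R) (fun x _ => (f2 x).hasDerivWithinAt) (fun x hx => by
        refine (Complex.abs_re_le_norm _).trans (d2 _ ?_)
        rw [Complex.norm_real, Real.norm_eq_abs]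
        exact (abs_le.2 hx).trans hb) m0 ht
    rw [Complex.ofReal_zero, z0, sub_zero, sub_zero, Real.norm_eq_abs, Real.norm_eq_abs] at h1
    exact h1.trans (mul_le_mul_of_nonneg_left (abs_le.2 ht) hB0)
  have h1 := conv.norm_image_sub_le_of_norm_hasDerivWithin_le
    (f := fun t : ℝ => (g (t : ℂ)).re) (f' := fun t : ℝ => (deriv g (t : ℂ)).re)
    (C := B / R / R * |b|) (fun x _ => (f1 x).hasDerivWithinAt) (fun x hx => e1 x hx) m0 mb
  rw [Complex.ofReal_zero, sub_zero, Real.norm_eq_abs, Real.norm_eq_abs] at h1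
  refine h1.trans (le_of_eq ?_)
  rw [mul_assoc, abs_mul_abs_self, pow_two]

theorem an : S_AN := by
  intro ψ μ hT hμ _ h0
  obtain ⟨C, hC0, hdec⟩ := decay ψ μ hT hμ h0
  have hdiff := ctc_diff ψ μ hT hμ h0
  obtain ⟨K, hK⟩ : ∃ K, K = C * Real.exp 3 := ⟨_, rfl⟩
  have hK0 : 0 < K := by rw [hK]; positivity
  obtain ⟨E, hE⟩ : ∃ E, E = Real.exp (6 * Real.pi * μ) := ⟨_, rfl⟩
  have hE0 : 0 < E := by rw [hE]; positivity
  refine ⟨K * (16 * E + 2), by positivity, fun lam d b hl hb => ?_⟩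
  have hlam : 0 < lam := by linarith
  have bd : ∀ z : ℂ, |z.im| ≤ 3 → ‖Hc ψ lam z‖ ≤
      K * Real.exp (2 * Real.pi * μ * lam * |z.im|) * ((1 + lam * |z.re|)⁻¹) ^ 2 := by
    intro z hz
    rw [hK]
    exact Hc_bd ψ μ C hC0 hdec lam hl z hz
  obtain ⟨X, hX⟩ : ∃ X, X = Real.exp (2 * Real.pi * μ * lam * |b|) := ⟨_, rfl⟩
  obtain ⟨Q, hQ⟩ : ∃ Q, Q = ((1 + lam * |d|)⁻¹) ^ 2 := ⟨_, rfl⟩
  have hX1 : 1 ≤ X := by
    rw [hX]
    exact Real.one_le_exp (by positivity)
  have hQ0 : 0 < Q := by rw [hQ]; positivity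
  have re1 : ((d : ℂ) - b * I).re = d := by simp
  have im1 : ((d : ℂ) - b * I).im = -b := by simp
  have B2 : |hC ψ lam d b| ≤ K * X * Q := by
    rw [hC_eq]
    refine (Complex.abs_re_le_norm _).trans ?_
    have := bd ((d : ℂ) - b * I) (by rw [im1, abs_neg]; linarith)
    rw [re1, im1, abs_neg, ← hX, ← hQ] at this
    exact this
  have B3 : |hR ψ lam d| ≤ K * Q := by
    rw [hR_eq]
    refine (Complex.abs_re_le_norm _).trans ?_
    have := bd (d : ℂ) (by simp)
    rw [Complex.ofReal_im, Complex.ofReal_re, abs_zero, mul_zero, Real.exp_zero, mul_one,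
      ← hQ] at this
    exact this
  rw [← hX, ← hQ]
  have hKQ : 0 < K * Q := by positivity
  refine ⟨?_, ?_, ?_⟩
  · by_cases hbl : 1 ≤ |b| * lam
    · have h1 : |hC ψ lam d b - hR ψ lam d| ≤ 2 * (K * X * Q) := by
        have h2 := abs_sub (hC ψ lam d b) (hR ψ lam d)
        have h3 : K * Q ≤ K * X * Q := by nlinarith
        linarith
      have h4 : 1 ≤ (b * lam) ^ 2 := by
        rw [← sq_abs, abs_mul, abs_of_pos hlam]
        nlinarith
      have h5 : 0 ≤ K * X * Q := by positivity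
      have h6 : 2 * (K * X * Q) ≤ K * (16 * E + 2) * X * Q := by
        have : K * (16 * E + 2) * X * Q = (16 * E + 2) * (K * X * Q) := by ring
        rw [this]
        nlinarith
      have h7 : K * (16 * E + 2) * X * Q ≤ K * (16 * E + 2) * (b * lam) ^ 2 * X * Q := by
        have h8 : 0 ≤ K * (16 * E + 2) * X * Q := by positivity
        have : K * (16 * E + 2) * (b * lam) ^ 2 * X * Q =
          (K * (16 * E + 2) * X * Q) * (b * lam) ^ 2 := by ring
        rw [this]
        nlinarith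
      linarith
    · push Not at hbl
      have hR0 : 0 < 1 / lam := by positivity
      have h1 := sec (fun ζ : ℂ => Hc ψ lam ((d : ℂ) - ζ * I)) (by
          unfold Hc
          exact (hdiff.comp (by fun_prop)).mul (by fun_prop)) (1 / lam) (16 * E * K * Q) b hR0
        (fun z hz => by
          have e1 : ((d : ℂ) - z * I).re = d + z.im := by simp
          have e2 : ((d : ℂ) - z * I).im = -z.re := by simp
          have e3 : |z.re| ≤ 3 / lam := by
            refine (Complex.abs_re_le_norm z).trans (hz.trans (le_of_eq ?_))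
            ring
          have e4 : |z.im| ≤ 3 / lam := by
            refine (Complex.abs_im_le_norm z).trans (hz.trans (le_of_eq ?_))
            ring
          have e5 : 3 / lam ≤ 3 := by
            rw [div_le_iff₀ hlam]
            linarith
          refine (bd _ (by rw [e2, abs_neg]; linarith)).trans ?_
          rw [e1, e2, abs_neg]
          have e6 : Real.exp (2 * Real.pi * μ * lam * |z.re|) ≤ E := by
            rw [hE]
            apply Real.exp_le_exp.2
            have e7 : lam * |z.re| ≤ 3 := by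
              rw [le_div_iff₀ hlam] at e3
              linarith
            have e8 : 2 * Real.pi * μ * (lam * |z.re|) ≤ 2 * Real.pi * μ * 3 :=
              mul_le_mul_of_nonneg_left e7 (by positivity)
            linarith
          have e9 : ((1 + lam * |d + z.im|)⁻¹) ^ 2 ≤ 16 * Q := by
            have f1 : 1 + lam * |d| ≤ 4 * (1 + lam * |d + z.im|) := by
              have f2 : |d| ≤ |d + z.im| + |z.im| := by
                have := abs_sub (d + z.im) z.im
                rwa [add_sub_cancel_right] at this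
              have f3 : lam * |z.im| ≤ 3 := by
                rw [le_div_iff₀ hlam] at e4
                linarith
              have f4 := mul_le_mul_of_nonneg_left f2 hlam.le
              have f5 : 0 ≤ lam * |d + z.im| := by positivity
              rw [mul_add] at f4
              linarith
            have f6 : (0 : ℝ) < 1 + lam * |d| := by positivity
            have f7 : (0 : ℝ) < 1 + lam * |d + z.im| := by positivity
            have f8 : (1 + lam * |d + z.im|)⁻¹ ≤ 4 * (1 + lam * |d|)⁻¹ := by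
              rw [inv_le_iff_one_le_mul₀ f7, mul_assoc, ← div_eq_inv_mul, ← mul_div_assoc,
                le_div_iff₀ f6]
              linarith
            have f9 := pow_le_pow_left₀ (by positivity) f8 2
            rw [mul_pow, ← hQ] at f9
            have g1 : (4 : ℝ) ^ 2 = 16 := by norm_num
            rw [g1] at f9
            exact f9
          calc K * Real.exp (2 * Real.pi * μ * lam * |z.re|) * ((1 + lam * |d + z.im|)⁻¹) ^ 2
              ≤ K * E * (16 * Q) :=
                mul_le_mul (mul_le_mul_of_nonneg_left e6 hK0.le) e9 (by positivity)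
                  (by positivity)
            _ = 16 * E * K * Q := by ring)
        (by
          rw [le_div_iff₀ hlam]
          linarith)
        (fun t => by
          have e1 : (d : ℂ) - ((-t : ℝ) : ℂ) * I = starRingEnd ℂ ((d : ℂ) - (t : ℂ) * I) := by
            rw [map_sub, map_mul, Complex.conj_ofReal, Complex.conj_ofReal, Complex.conj_I]
            push_cast
            ring
          show (Hc ψ lam ((d : ℂ) - ((-t : ℝ) : ℂ) * I)).re = (Hc ψ lam ((d : ℂ) - (t : ℂ) * I)).re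
          rw [e1, Hc_conj, Complex.conj_re])
      simp only [zero_mul, sub_zero] at h1
      rw [← hC_eq, ← hR_eq] at h1
      refine h1.trans ?_
      have e1 : 16 * E * K * Q / (1 / lam) / (1 / lam) * b ^ 2 =
          K * (16 * E) * (b * lam) ^ 2 * 1 * Q := by
        field_simp
      rw [e1]
      have e2 : 0 ≤ K * (b * lam) ^ 2 * Q := by positivity
      have e3 : 0 ≤ K * (16 * E + 2) * (b * lam) ^ 2 * Q := by positivity
      nlinarith
  · refine B2.trans ?_
    have h5 : 0 ≤ K * X * Q := by positivity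
    have : K * (16 * E + 2) * X * Q = (16 * E + 2) * (K * X * Q) := by ring
    rw [this]
    nlinarith
  · refine B3.trans ?_
    have : K * (16 * E + 2) * Q = (16 * E + 2) * (K * Q) := by ring
    rw [this]
    nlinarith

end Pool.Agent.W347.PU
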